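import Pool.Agent.Y706.KC.Stm

/-!
# Project KC: from the local to the global inequality
-/

set_option autoImplicit false

namespace Pool.Agent.Y706.KC

open Pool.Agent.W277.UB Pool.Agent.W277.UG Pool.Agent.W277.UH Finset Polynomial

universe u v w

section

variable {k : Type v} {K : Type u} [Field k] [Field K] [Algebra k K]

lemma vF_map {Ω : Type*} [NormedField Ω] (ι : K →+* Ω) (d : ℕ) (p q : Polynomial K) (X : K × K)
    (n : ℕ) : (vF d (p.map ι) (q.map ι))^[n] (vm ι X) = vm ι ((vF d p q)^[n] X) := by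
  induction n with
  | zero => rfl
  | succ n ih =>
    rw [Function.iterate_succ_apply', ih, Function.iterate_succ_apply']
    unfold vF
    rw [hev_map, hev_map]
    rfl

/-- the product formula -/
lemma sum_ord (Q : PlaceData.{w} k K) {x : K} (hx : x ≠ 0) (S : Finset Q.Pl)
    (hS : ∀ v, v ∉ S → Q.ord v x = 0) : ∑ v ∈ S, (Q.wt v : ℝ) * (Q.ord v x : ℝ) = 0 := by
  have h1 := Q.prod_formula x hx S fun v hv => (hS v hv).ge
  have h2 := Q.prod_formula x⁻¹ (inv_ne_zero hx) S fun v hv => by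
    rw [PlaceData.ord_inv hx, hS v hv]
    simp
  have h3 : ∑ v ∈ S, Q.wt v * Q.ord v x⁻¹ = -∑ v ∈ S, Q.wt v * Q.ord v x := by
    rw [← Finset.sum_neg_distrib]
    apply Finset.sum_congr rfl
    intro v _
    rw [PlaceData.ord_inv hx]
    ring
  rw [h3] at h2
  have h4 : ∑ v ∈ S, Q.wt v * Q.ord v x = 0 := by linarith
  exact_mod_cast h4

/-- what the local inequality gives at a place -/
def LL (Q : PlaceData.{w} k K) (d : ℕ) (p q : Polynomial K) (Z : Finset k) (lam : k → K)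
    (a b : k → ℕ) (v : Q.Pl) (γ R : ℝ) : Prop :=
  0 ≤ R ∧ R = (Q.ord v (resultant q p d d) : ℝ) + 2 * d * γ ∧
    (∃ c : K, c ≠ 0 ∧ (∃ i, c = p.coeff i ∨ c = q.coeff i) ∧ γ = -(Q.ord v c : ℝ)) ∧
    (∀ i, (p.coeff i ≠ 0 → -(Q.ord v (p.coeff i) : ℝ) ≤ γ) ∧
      (q.coeff i ≠ 0 → -(Q.ord v (q.coeff i) : ℝ) ≤ γ)) ∧
    ∑ z ∈ Z, (γ / ((d : ℝ) - 1) + (Q.ord v (lam z) : ℝ) / ((d : ℝ) ^ a z - (d : ℝ) ^ b z)) ≤
      Z.card * (R * ((1 - ((d : ℝ) - 1) / (2 * (d + 1))) / (2 * d * (d - 1)) +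
          1 / (2 * (d : ℝ) ^ 7) + 1 / ((d : ℝ) ^ 7 * (d - 1)))) + (d : ℝ) ^ 7 * R / (d - 1)

lemma local_place [CharZero k] (hLOC : S_LOC.{u}) (Q : PlaceData.{w} k K) (d : ℕ) (hd : 2 ≤ d)
    (p q : Polynomial K) (hp : p.natDegree ≤ d) (hq : q.natDegree ≤ d)
    (ht : p.coeff d ≠ 0 ∨ q.coeff d ≠ 0) (hco : IsCoprime p q) (Z : Finset k) (lam : k → K)
    (a b : k → ℕ) (hZ : ∀ z ∈ Z, lam z ≠ 0 ∧ b z < a z ∧
      (vF d p q)^[a z] (algebraMap k K z, 1) = lam z • (vF d p q)^[b z] (algebraMap k K z, 1))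
    (v : Q.Pl) (π : K) (hπ0 : π ≠ 0) (hπ : Q.ord v π ≠ 0) :
    resultant q p d d ≠ 0 ∧ ∃ γ R : ℝ, LL Q d p q Z lam a b v γ R := by
  classical
  obtain ⟨Ω, _, _, _, ι, hι⟩ := exists_ext Q v π hπ0 hπ
  have hconst : ∀ z : k, z ≠ 0 → ‖ι (algebraMap k K z)‖ = 1 := by
    intro z hz
    rw [hι _ ((_root_.map_ne_zero _).mpr hz), Q.ord_alg v z hz]
    simp
  have hnat : ∀ n : ℕ, n ≠ 0 → ‖(n : Ω)‖ = 1 := by
    intro n hn
    have := hconst (n : k) (Nat.cast_ne_zero.mpr hn)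
    rwa [map_natCast, map_natCast] at this
  obtain ⟨φ, hφ⟩ : ∃ φ : k →+* Ω, φ = ι.comp (algebraMap k K) := ⟨_, rfl⟩
  have hφz : ∀ z, φ z = ι (algebraMap k K z) := fun z => by rw [hφ]; rfl
  have hφinj : Function.Injective φ := φ.injective
  obtain ⟨ψ, hψ⟩ : ∃ ψ : Ω → k, ∀ z, ψ (φ z) = z :=
    ⟨Function.invFun φ, fun z => Function.leftInverse_invFun hφinj z⟩
  obtain ⟨g, R, hg0, hR0, hres, ⟨i₀, hi₀⟩, hle, hsum⟩ := hLOC Ω hnat d hd (p.map ι) (q.map ι)
    (natDegree_map_le.trans hp) (natDegree_map_le.trans hq) (by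
      rw [coeff_map, coeff_map]
      rcases ht with h | h
      · exact Or.inl ((_root_.map_ne_zero ι).mpr h)
      · exact Or.inr ((_root_.map_ne_zero ι).mpr h)) (hco.map (Polynomial.mapRingHom ι))
  rw [resultant_map_map] at hres
  have hres0 : resultant q p d d ≠ 0 := by
    intro h
    rw [h, map_zero, norm_zero] at hres
    have : 0 < Real.exp (-R) * g ^ (2 * d) := by positivity
    exact this.ne' hres
  refine ⟨hres0, Real.log g, R, hR0, ?_, ?_, ?_, ?_⟩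
  · have h1 := congrArg Real.log hres
    rw [Real.log_mul (Real.exp_pos _).ne' (pow_pos hg0 _).ne', Real.log_exp, Real.log_pow,
      hι _ hres0, Real.log_exp] at h1
    push_cast at h1
    linarith
  · rcases hi₀ with h | h
    · rw [coeff_map] at h
      have hc : p.coeff i₀ ≠ 0 := by
        intro h0
        rw [h0, map_zero, norm_zero] at h
        exact hg0.ne h
      refine ⟨_, hc, ⟨i₀, Or.inl rfl⟩, ?_⟩
      rw [← h, hι _ hc, Real.log_exp]
    · rw [coeff_map] at h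
      have hc : q.coeff i₀ ≠ 0 := by
        intro h0
        rw [h0, map_zero, norm_zero] at h
        exact hg0.ne h
      refine ⟨_, hc, ⟨i₀, Or.inr rfl⟩, ?_⟩
      rw [← h, hι _ hc, Real.log_exp]
  · intro i
    constructor
    · intro hc
      have h := (hle i).1
      rw [coeff_map, hι _ hc] at h
      have := Real.log_le_log (Real.exp_pos _) h
      rwa [Real.log_exp] at this
    · intro hc
      have h := (hle i).2
      rw [coeff_map, hι _ hc] at h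
      have := Real.log_le_log (Real.exp_pos _) h
      rwa [Real.log_exp] at this
  · have h := hsum (Z.image φ) (fun ω => ι (lam (ψ ω))) (fun ω => a (ψ ω)) (fun ω => b (ψ ω)) (by
      intro ω hω
      obtain ⟨z, hz, rfl⟩ := Finset.mem_image.mp hω
      obtain ⟨h1, h2, h3⟩ := hZ z hz
      rw [hψ]
      refine ⟨?_, (_root_.map_ne_zero ι).mpr h1, h2, ?_⟩
      · by_cases hz0 : z = 0
        · rw [hz0, map_zero, norm_zero]
          exact zero_le_one
        · rw [hφz, hconst z hz0]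
      · have e : ((φ z, 1) : Ω × Ω) = vm ι (algebraMap k K z, 1) := by
          unfold vm
          rw [hφz, map_one]
        rw [e, vF_map, vF_map, h3]
        unfold vm
        simp) (by
      intro ω hω ω' hω' hne
      obtain ⟨z, hz, rfl⟩ := Finset.mem_image.mp hω
      obtain ⟨z', hz', rfl⟩ := Finset.mem_image.mp hω'
      rw [← map_sub, hφz]
      apply hconst
      intro h0
      exact hne (by rw [sub_eq_zero.mp h0])) 7 (by norm_num)
    rw [Finset.card_image_of_injective _ hφinj, Finset.sum_image (fun x _ y _ h => hφinj h)] at h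
    refine le_trans (le_of_eq ?_) h
    apply Finset.sum_congr rfl
    intro z hz
    obtain ⟨h1, h2, h3⟩ := hZ z hz
    simp only [hψ]
    rw [hι _ h1, Real.log_exp, neg_div, sub_neg_eq_add]

/-- numerical step -/
lemma numer {d : ℕ} (hd : 2 ≤ d) {N : ℕ} {H : ℝ} (hH : 0 < H)
    (h : (N : ℝ) * (H / (2 * d * (d - 1))) ≤
      N * (H * ((1 - ((d : ℝ) - 1) / (2 * (d + 1))) / (2 * d * (d - 1)) +
          1 / (2 * (d : ℝ) ^ 7) + 1 / ((d : ℝ) ^ 7 * (d - 1)))) + (d : ℝ) ^ 7 * H / (d - 1)) :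
    N ≤ NN d := by
  have hdR : (2 : ℝ) ≤ d := by exact_mod_cast hd
  have hd0 : (0 : ℝ) < d := by linarith
  have hd1 : (0 : ℝ) < (d : ℝ) - 1 := by linarith
  have hd2 : (0 : ℝ) < (d : ℝ) + 1 := by linarith
  have hp7 : (0 : ℝ) < (d : ℝ) ^ 7 := by positivity
  have hbig : 12 * (d : ℝ) * (d + 1) ≤ (d : ℝ) ^ 7 := by
    have h1 : (2 : ℝ) ^ 5 ≤ (d : ℝ) ^ 5 := pow_le_pow_left₀ (by norm_num) hdR 5
    have h2 : (d : ℝ) ^ 7 = (d : ℝ) ^ 5 * d ^ 2 := by ring
    rw [h2]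
    nlinarith [mul_le_mul_of_nonneg_right h1 (by positivity : (0 : ℝ) ≤ (d : ℝ) ^ 2)]
  -- divide by H
  have h3 : (N : ℝ) * (1 / (2 * d * (d - 1))) ≤
      N * ((1 - ((d : ℝ) - 1) / (2 * (d + 1))) / (2 * d * (d - 1)) +
          1 / (2 * (d : ℝ) ^ 7) + 1 / ((d : ℝ) ^ 7 * (d - 1))) + (d : ℝ) ^ 7 / (d - 1) := by
    have e1 : (N : ℝ) * (H / (2 * d * (d - 1))) = H * (N * (1 / (2 * d * (d - 1)))) := by ring
    have e2 : N * (H * ((1 - ((d : ℝ) - 1) / (2 * (d + 1))) / (2 * d * (d - 1)) +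
          1 / (2 * (d : ℝ) ^ 7) + 1 / ((d : ℝ) ^ 7 * (d - 1)))) + (d : ℝ) ^ 7 * H / (d - 1) =
        H * (N * ((1 - ((d : ℝ) - 1) / (2 * (d + 1))) / (2 * d * (d - 1)) +
          1 / (2 * (d : ℝ) ^ 7) + 1 / ((d : ℝ) ^ 7 * (d - 1))) + (d : ℝ) ^ 7 / (d - 1)) := by ring
    rw [e1, e2] at h
    exact le_of_mul_le_mul_left h hH
  have e4 : 1 / (2 * (d : ℝ) * (d - 1)) - ((1 - ((d : ℝ) - 1) / (2 * (d + 1))) /
      (2 * d * (d - 1))) = 1 / (4 * d * (d + 1)) := by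
    field_simp
    ring
  have h5 : (N : ℝ) * (1 / (4 * d * (d + 1)) - 1 / (2 * (d : ℝ) ^ 7) -
      1 / ((d : ℝ) ^ 7 * (d - 1))) ≤ (d : ℝ) ^ 7 / (d - 1) := by
    rw [← e4]
    linarith
  have h6 : 1 / (2 * (d : ℝ) ^ 7) + 1 / ((d : ℝ) ^ 7 * (d - 1)) ≤ 1 / (8 * d * (d + 1)) := by
    have h7 : 1 / ((d : ℝ) ^ 7 * (d - 1)) ≤ 1 / (d : ℝ) ^ 7 := by
      apply one_div_le_one_div_of_le hp7
      nlinarith
    have h8 : 1 / (2 * (d : ℝ) ^ 7) + 1 / (d : ℝ) ^ 7 = 3 / 2 * (1 / (d : ℝ) ^ 7) := by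
      field_simp
      norm_num
    have h9 : 1 / (d : ℝ) ^ 7 ≤ 1 / (12 * (d : ℝ) * (d + 1)) :=
      one_div_le_one_div_of_le (by positivity) hbig
    have h10 : 3 / 2 * (1 / (12 * (d : ℝ) * (d + 1))) = 1 / (8 * d * (d + 1)) := by
      field_simp
      norm_num
    linarith
  have e11 : 1 / (4 * (d : ℝ) * (d + 1)) - 1 / (8 * d * (d + 1)) = 1 / (8 * d * (d + 1)) := by
    field_simp
    norm_num
  have hN : (0 : ℝ) ≤ N := Nat.cast_nonneg _
  have h12 : (N : ℝ) * (1 / (8 * d * (d + 1))) ≤ (d : ℝ) ^ 7 := by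
    have h13 : (N : ℝ) * (1 / (8 * d * (d + 1))) ≤ (N : ℝ) * (1 / (4 * d * (d + 1)) -
        1 / (2 * (d : ℝ) ^ 7) - 1 / ((d : ℝ) ^ 7 * (d - 1))) :=
      mul_le_mul_of_nonneg_left (by linarith) hN
    have h14 : (d : ℝ) ^ 7 / (d - 1) ≤ (d : ℝ) ^ 7 := by
      apply div_le_self hp7.le
      linarith
    linarith
  have h15 : (N : ℝ) ≤ 8 * d * (d + 1) * (d : ℝ) ^ 7 := by
    rw [mul_one_div, div_le_iff₀ (by positivity)] at h12
    linarith
  unfold NN
  exact_mod_cast h15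

end

/-- **from the local to the global inequality** -/
theorem t_GLO (hLOC : S_LOC.{u}) : S_GLO.{u, v, w} := by
  classical
  intro k K _ _ _ _ Q d hd p q hp hq ht hco hnc Z hZ
  have hZ' : ∀ z : k, ∃ (lam : K) (a b : ℕ), z ∈ Z → lam ≠ 0 ∧ b < a ∧
      (vF d p q)^[a] (algebraMap k K z, 1) = lam • (vF d p q)^[b] (algebraMap k K z, 1) := by
    intro z
    by_cases hz : z ∈ Z
    · obtain ⟨lam, a, b, h⟩ := hZ z hz
      exact ⟨lam, a, b, fun _ => h⟩
    · exact ⟨0, 0, 0, fun h => absurd h hz⟩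
  choose lam a b hlab using hZ'
  have hdR : (2 : ℝ) ≤ d := by exact_mod_cast hd
  -- a place which is not trivial
  have hex : ∃ (v : Q.Pl) (π : K), π ≠ 0 ∧ Q.ord v π ≠ 0 := by
    by_contra hcon
    push Not at hcon
    apply hnc
    have hall : ∀ x : K, ∃ c : k, algebraMap k K c = x := by
      intro x
      by_cases hx : x = 0
      · exact ⟨0, by rw [hx, map_zero]⟩
      · exact Q.const x hx fun v => (hcon v x hx).ge
    exact ⟨1, one_ne_zero, fun i => ⟨hall _, hall _⟩⟩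
  obtain ⟨v₀, π₀, hπ₀, hv₀⟩ := hex
  have hres0 := (local_place hLOC Q d hd p q hp hq ht hco Z lam a b hlab v₀ π₀ hπ₀ hv₀).1
  obtain ⟨c₀, hc₀, hc₀'⟩ : ∃ c : K, c ≠ 0 ∧ ∃ i, c = p.coeff i ∨ c = q.coeff i := by
    rcases ht with h | h
    · exact ⟨_, h, d, Or.inl rfl⟩
    · exact ⟨_, h, d, Or.inr rfl⟩
  have hloc : ∀ v : Q.Pl, ∃ γ R : ℝ, LL Q d p q Z lam a b v γ R := by
    intro v
    by_cases hv : ∃ π : K, π ≠ 0 ∧ Q.ord v π ≠ 0
    · obtain ⟨π, h1, h2⟩ := hv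
      exact (local_place hLOC Q d hd p q hp hq ht hco Z lam a b hlab v π h1 h2).2
    · push Not at hv
      refine ⟨0, 0, le_rfl, ?_, ⟨c₀, hc₀, hc₀', ?_⟩, ?_, ?_⟩
      · rw [hv _ hres0]
        simp
      · rw [hv _ hc₀]
        simp
      · intro i
        constructor
        · intro h
          rw [hv _ h]
          simp
        · intro h
          rw [hv _ h]
          simp
      · have : ∑ z ∈ Z, ((0 : ℝ) / ((d : ℝ) - 1) + (Q.ord v (lam z) : ℝ) /
            ((d : ℝ) ^ a z - (d : ℝ) ^ b z)) = 0 := by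
          apply Finset.sum_eq_zero
          intro z hz
          rw [hv _ (hlab z hz).1]
          simp
        rw [this]
        simp
  choose γ R hL using hloc
  -- the finite set of places
  obtain ⟨T, hT⟩ : ∃ T : Finset K, T = ((Finset.range (d + 1)).image p.coeff ∪
      (Finset.range (d + 1)).image q.coeff ∪ Z.image lam ∪ {resultant q p d d}).filter (· ≠ 0) :=
    ⟨_, rfl⟩
  have hT0 : ∀ x ∈ T, x ≠ 0 := by
    intro x hx
    rw [hT, Finset.mem_filter] at hx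
    exact hx.2
  have hfin : {v : Q.Pl | ∃ x ∈ T, Q.ord v x ≠ 0}.Finite := by
    have : {v : Q.Pl | ∃ x ∈ T, Q.ord v x ≠ 0} = ⋃ x ∈ T, {v | Q.ord v x ≠ 0} := by
      ext v
      simp
    rw [this]
    exact T.finite_toSet.biUnion fun x hx => Q.fin x (hT0 x hx)
  obtain ⟨S, hS⟩ : ∃ S : Finset Q.Pl, ∀ v, v ∉ S → ∀ x ∈ T, Q.ord v x = 0 := by
    refine ⟨hfin.toFinset, fun v hv x hx => ?_⟩
    by_contra hne
    apply hv
    rw [Set.Finite.mem_toFinset]
    exact ⟨x, hx, hne⟩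
  have hmemp : ∀ i, p.coeff i ≠ 0 → p.coeff i ∈ T := by
    intro i hi
    rw [hT, Finset.mem_filter]
    refine ⟨?_, hi⟩
    have h1 := (le_natDegree_of_ne_zero hi).trans hp
    simp only [Finset.mem_union, Finset.mem_image, Finset.mem_range, Finset.mem_singleton]
    exact Or.inl (Or.inl (Or.inl ⟨i, by omega, rfl⟩))
  have hmemq : ∀ i, q.coeff i ≠ 0 → q.coeff i ∈ T := by
    intro i hi
    rw [hT, Finset.mem_filter]
    refine ⟨?_, hi⟩
    have h1 := (le_natDegree_of_ne_zero hi).trans hq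
    simp only [Finset.mem_union, Finset.mem_image, Finset.mem_range, Finset.mem_singleton]
    exact Or.inl (Or.inl (Or.inr ⟨i, by omega, rfl⟩))
  have hmeml : ∀ z ∈ Z, lam z ∈ T := by
    intro z hz
    rw [hT, Finset.mem_filter]
    refine ⟨?_, (hlab z hz).1⟩
    simp only [Finset.mem_union, Finset.mem_image, Finset.mem_singleton]
    exact Or.inl (Or.inr ⟨z, hz, rfl⟩)
  have hmemr : resultant q p d d ∈ T := by
    rw [hT, Finset.mem_filter]
    refine ⟨?_, hres0⟩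
    simp only [Finset.mem_union, Finset.mem_singleton]
    exact Or.inr trivial
  have hγS : ∀ v, v ∉ S → γ v = 0 := by
    intro v hv
    obtain ⟨-, -, ⟨c, hc, ⟨i, hi⟩, hγ⟩, -, -⟩ := hL v
    rw [hγ]
    have : c ∈ T := by
      rcases hi with rfl | rfl
      · exact hmemp i hc
      · exact hmemq i hc
    rw [hS v hv c this]
    simp
  have hRS : ∀ v, v ∉ S → R v = 0 := by
    intro v hv
    obtain ⟨-, hR, -, -, -⟩ := hL v
    rw [hR, hγS v hv, hS v hv _ hmemr]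
    simp
  obtain ⟨H, hH⟩ : ∃ H : ℝ, H = ∑ v ∈ S, (Q.wt v : ℝ) * R v := ⟨_, rfl⟩
  have hwt : ∀ v, (1 : ℝ) ≤ Q.wt v := fun v => by exact_mod_cast Q.wt_one v
  have hH0 : 0 ≤ H := by
    rw [hH]
    apply Finset.sum_nonneg
    intro v _
    exact mul_nonneg (by linarith [hwt v]) (hL v).1
  have hHγ : H = 2 * d * ∑ v ∈ S, (Q.wt v : ℝ) * γ v := by
    have h1 := sum_ord Q hres0 S fun v hv => hS v hv _ hmemr
    rw [hH, Finset.mul_sum]
    have h2 : ∀ v ∈ S, (Q.wt v : ℝ) * R v = (Q.wt v : ℝ) * (Q.ord v (resultant q p d d) : ℝ) +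
        2 * d * ((Q.wt v : ℝ) * γ v) := by
      intro v _
      rw [(hL v).2.1]
      ring
    rw [Finset.sum_congr rfl h2, Finset.sum_add_distrib, h1, zero_add]
  -- the global inequality
  have hglob : (Z.card : ℝ) * (H / (2 * d * (d - 1))) ≤
      Z.card * (H * ((1 - ((d : ℝ) - 1) / (2 * (d + 1))) / (2 * d * (d - 1)) +
          1 / (2 * (d : ℝ) ^ 7) + 1 / ((d : ℝ) ^ 7 * (d - 1)))) + (d : ℝ) ^ 7 * H / (d - 1) := by
    obtain ⟨A, hA⟩ : ∃ A : ℝ, A = (1 - ((d : ℝ) - 1) / (2 * (d + 1))) / (2 * d * (d - 1)) +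
          1 / (2 * (d : ℝ) ^ 7) + 1 / ((d : ℝ) ^ 7 * (d - 1)) := ⟨_, rfl⟩
    rw [← hA]
    have h1 : ∑ v ∈ S, (Q.wt v : ℝ) * ∑ z ∈ Z, (γ v / ((d : ℝ) - 1) +
        (Q.ord v (lam z) : ℝ) / ((d : ℝ) ^ a z - (d : ℝ) ^ b z)) ≤
        ∑ v ∈ S, (Q.wt v : ℝ) * (Z.card * (R v * A) + (d : ℝ) ^ 7 * R v / (d - 1)) := by
      apply Finset.sum_le_sum
      intro v _
      apply mul_le_mul_of_nonneg_left _ (by linarith [hwt v])
      rw [hA]
      exact (hL v).2.2.2.2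
    have h2 : ∑ v ∈ S, (Q.wt v : ℝ) * (Z.card * (R v * A) + (d : ℝ) ^ 7 * R v / (d - 1)) =
        Z.card * (H * A) + (d : ℝ) ^ 7 * H / (d - 1) := by
      rw [hH, Finset.sum_mul, Finset.mul_sum, Finset.mul_sum, Finset.sum_div,
        ← Finset.sum_add_distrib]
      apply Finset.sum_congr rfl
      intro v _
      ring
    have h3 : ∑ v ∈ S, (Q.wt v : ℝ) * ∑ z ∈ Z, (γ v / ((d : ℝ) - 1) +
        (Q.ord v (lam z) : ℝ) / ((d : ℝ) ^ a z - (d : ℝ) ^ b z)) =
        Z.card * (H / (2 * d * (d - 1))) := by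
      have h4 : ∑ v ∈ S, (Q.wt v : ℝ) * ∑ z ∈ Z, (γ v / ((d : ℝ) - 1) +
          (Q.ord v (lam z) : ℝ) / ((d : ℝ) ^ a z - (d : ℝ) ^ b z)) =
          ∑ z ∈ Z, ((∑ v ∈ S, (Q.wt v : ℝ) * γ v) / ((d : ℝ) - 1) +
            (∑ v ∈ S, (Q.wt v : ℝ) * (Q.ord v (lam z) : ℝ)) / ((d : ℝ) ^ a z - (d : ℝ) ^ b z)) := by
        simp only [Finset.mul_sum]
        rw [Finset.sum_comm]
        apply Finset.sum_congr rfl
        intro z _
        rw [Finset.sum_div, Finset.sum_div, ← Finset.sum_add_distrib]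
        apply Finset.sum_congr rfl
        intro v _
        ring
      rw [h4]
      have h5 : ∀ z ∈ Z, ((∑ v ∈ S, (Q.wt v : ℝ) * γ v) / ((d : ℝ) - 1) +
            (∑ v ∈ S, (Q.wt v : ℝ) * (Q.ord v (lam z) : ℝ)) / ((d : ℝ) ^ a z - (d : ℝ) ^ b z)) =
            H / (2 * d * (d - 1)) := by
        intro z hz
        rw [sum_ord Q (hlab z hz).1 S fun v hv => hS v hv _ (hmeml z hz), zero_div, add_zero, hHγ]
        have h6 : (d : ℝ) - 1 ≠ 0 := by linarith
        have h7 : (d : ℝ) ≠ 0 := by linarith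
        field_simp
      rw [Finset.sum_congr rfl h5, Finset.sum_const, nsmul_eq_mul]
    rw [h3, h2] at h1
    exact h1
  rcases hH0.lt_or_eq with hpos | hzero
  · exact numer hd hpos hglob
  · exfalso
    have hR0 : ∀ v, R v = 0 := by
      intro v
      by_cases hv : v ∈ S
      · have h1 : ∀ w ∈ S, 0 ≤ (Q.wt w : ℝ) * R w := fun w _ =>
          mul_nonneg (by linarith [hwt w]) (hL w).1
        have h2 := (Finset.sum_eq_zero_iff_of_nonneg h1).mp (by rw [← hH]; exact hzero.symm) v hv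
        rcases mul_eq_zero.mp h2 with h3 | h3
        · linarith [hwt v]
        · exact h3
      · exact hRS v hv
    apply hnc
    have hγ : ∀ v, 2 * d * γ v = -(Q.ord v (resultant q p d d) : ℝ) := by
      intro v
      have := (hL v).2.1
      rw [hR0 v] at this
      linarith
    have hconst : ∀ c : K, (c ≠ 0 → ∀ v, -(Q.ord v c : ℝ) ≤ γ v) →
        ∃ x : k, algebraMap k K x = c₀ ^ (2 * d - 1) / resultant q p d d * c := by
      intro c hc
      by_cases hc0 : c = 0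
      · exact ⟨0, by rw [hc0, map_zero, mul_zero]⟩
      · refine Q.const _ (mul_ne_zero (div_ne_zero (pow_ne_zero _ hc₀) hres0) hc0) fun v => ?_
        rw [Q.ord_mul v _ _ (div_ne_zero (pow_ne_zero _ hc₀) hres0) hc0,
          PlaceData.ord_div (pow_ne_zero _ hc₀) hres0, PlaceData.ord_pow hc₀]
        have h1 := hc hc0 v
        have h2 : -(Q.ord v c₀ : ℝ) ≤ γ v := by
          obtain ⟨i, hi⟩ := hc₀'
          have h3 := (hL v).2.2.2.1 i
          rcases hi with hi | hi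
          · rw [hi]
            exact h3.1 (hi ▸ hc₀)
          · rw [hi]
            exact h3.2 (hi ▸ hc₀)
        have h4 := hγ v
        have h5 : ((2 * d - 1 : ℕ) : ℝ) = 2 * d - 1 := by
          rw [Nat.cast_sub (by omega)]
          push_cast
          ring
        have h6 : (0 : ℝ) ≤ ((2 * d - 1 : ℕ) : ℝ) * (Q.ord v c₀ : ℝ) -
            (Q.ord v (resultant q p d d) : ℝ) + (Q.ord v c : ℝ) := by
          rw [h5]
          nlinarith
        exact_mod_cast h6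
    refine ⟨c₀ ^ (2 * d - 1) / resultant q p d d, div_ne_zero (pow_ne_zero _ hc₀) hres0,
      fun i => ⟨hconst _ fun h v => ((hL v).2.2.2.1 i).1 h,
        hconst _ fun h v => ((hL v).2.2.2.1 i).2 h⟩⟩

end Pool.Agent.Y706.KC
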