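import Pool.Agent.Y706.KC.Loc3
import Pool.Agent.Y706.KC.Glo
import Pool.Agent.Y945.KC.RED
import Pool.Agent.Y31.BI.Bdg
import Pool.Agent.Y706.P1

/-!
# Project KC: the theorem, and preperiodic points of maps over algebraically closed fields
-/

set_option autoImplicit false

namespace Pool.Agent.Y706.KC

open Pool.Agent.W277.UB Pool.Agent.W277.UG Pool.Agent.W277.UH Finset Polynomial

universe u

theorem fin : S_FIN.{u} := Pool.Agent.Y945.KC.t_RED (t_GLO t_LOC)

lemma itf_map {F L : Type*} [Field F] [Field L] (T : F →+* L) (d : ℕ) (p q : Polynomial F)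
    (m : ℕ) : Pool.Agent.Y31.BI.itf d (p.map T) (q.map T) m =
      ((Pool.Agent.Y31.BI.itf d p q m).1.map T, (Pool.Agent.Y31.BI.itf d p q m).2.map T) := by
  induction m with
  | zero =>
    unfold Pool.Agent.Y31.BI.itf
    simp
  | succ m ih =>
    show (hc d (p.map T) (Pool.Agent.Y31.BI.itf d (p.map T) (q.map T) m).1
      (Pool.Agent.Y31.BI.itf d (p.map T) (q.map T) m).2, hc d (q.map T)
      (Pool.Agent.Y31.BI.itf d (p.map T) (q.map T) m).1
      (Pool.Agent.Y31.BI.itf d (p.map T) (q.map T) m).2) = ((hc d p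
        (Pool.Agent.Y31.BI.itf d p q m).1 (Pool.Agent.Y31.BI.itf d p q m).2).map T, (hc d q
        (Pool.Agent.Y31.BI.itf d p q m).1 (Pool.Agent.Y31.BI.itf d p q m).2).map T)
    rw [ih]
    unfold hc hev
    ext1
    · simp [Polynomial.map_sum]
    · simp [Polynomial.map_sum]

lemma R_ne {F : Type*} [Field F] [IsAlgClosed F] {d : ℕ} (hd : 2 ≤ d) {p q : Polynomial F}
    (hp : p.natDegree ≤ d) (hq : q.natDegree ≤ d)
    (hco : IsCoprime p q) (ht : p.coeff d ≠ 0 ∨ q.coeff d ≠ 0) {a b : ℕ} (hab : b < a) :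
    (Pool.Agent.Y31.BI.itf d p q a).1 * (Pool.Agent.Y31.BI.itf d p q b).2 -
      (Pool.Agent.Y31.BI.itf d p q a).2 * (Pool.Agent.Y31.BI.itf d p q b).1 ≠ 0 := by
  have hd0 : d ≠ 0 := by omega
  obtain ⟨ha1, ha2⟩ := Pool.Agent.Y31.BI.itf_deg d p q a
  obtain ⟨hb1, hb2⟩ := Pool.Agent.Y31.BI.itf_deg d p q b
  have hlt : d ^ b < d ^ a := Nat.pow_lt_pow_right (by omega) hab
  intro h0
  have h1 : (Pool.Agent.Y31.BI.itf d p q a).1 * (Pool.Agent.Y31.BI.itf d p q b).2 =
      (Pool.Agent.Y31.BI.itf d p q a).2 * (Pool.Agent.Y31.BI.itf d p q b).1 :=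
    sub_eq_zero.mp h0
  have hca := Pool.Agent.Y31.BI.itf_coprime hd0 hp hq hco ht a
  have hcb := Pool.Agent.Y31.BI.itf_coprime hd0 hp hq hco ht b
  have d1 : (Pool.Agent.Y31.BI.itf d p q a).1 ∣ (Pool.Agent.Y31.BI.itf d p q b).1 :=
    hca.dvd_of_dvd_mul_left (Dvd.intro _ h1)
  have d2 : (Pool.Agent.Y31.BI.itf d p q a).2 ∣ (Pool.Agent.Y31.BI.itf d p q b).2 :=
    hca.symm.dvd_of_dvd_mul_left (Dvd.intro _ h1.symm)
  have key : ∀ A B : Polynomial F, A.coeff (d ^ a) ≠ 0 → B.natDegree ≤ d ^ b → A ∣ B → B = 0 := by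
    intro A B hA hB hAB
    by_contra hB0
    have h2 := natDegree_le_of_dvd hAB hB0
    have h3 := le_natDegree_of_ne_zero hA
    omega
  rcases Pool.Agent.Y31.BI.itf_top hd0 hp hq hco ht a with h2 | h2
  · have h3 := key _ _ h2 hb1 d1
    rw [h3, mul_zero] at h1
    have h4 : (Pool.Agent.Y31.BI.itf d p q a).1 ≠ 0 := fun h => h2 (by rw [h, coeff_zero])
    have h5 := (mul_eq_zero.mp h1).resolve_left h4
    rw [h3, h5] at hcb
    exact not_isCoprime_zero_zero hcb
  · have h3 := key _ _ h2 hb2 d2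
    rw [h3, mul_zero] at h1
    have h4 : (Pool.Agent.Y31.BI.itf d p q a).2 ≠ 0 := fun h => h2 (by rw [h, coeff_zero])
    have h5 := (mul_eq_zero.mp h1.symm).resolve_left h4
    rw [h3, h5] at hcb
    exact not_isCoprime_zero_zero hcb

/-- preperiodic points of a map over an algebraically closed field are constants -/
theorem pre_const {k L : Type u} [Field k] [IsAlgClosed k] [Field L] [Algebra k L] {d : ℕ}
    (hd : 2 ≤ d) {p q : Polynomial k} (hco : IsCoprime p q)
    (hmax : max p.natDegree q.natDegree = d) (x : L)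
    (hx : (Set.range fun m : ℕ => (ratP1 (p.map (algebraMap k L)) (q.map (algebraMap k L)) d)^[m]
      (some x)).Finite) : ∃ z : k, algebraMap k L z = x := by
  have hp : p.natDegree ≤ d := by rw [← hmax]; exact le_max_left _ _
  have hq : q.natDegree ≤ d := by rw [← hmax]; exact le_max_right _ _
  have ht : p.coeff d ≠ 0 ∨ q.coeff d ≠ 0 := by
    have key : ∀ g : Polynomial k, g.natDegree = d → g.coeff d ≠ 0 := by
      intro g hg
      rw [← hg, coeff_natDegree, Ne, leadingCoeff_eq_zero]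
      rintro rfl
      rw [natDegree_zero] at hg
      omega
    rcases le_total p.natDegree q.natDegree with h | h
    · exact Or.inr (key q ((max_eq_right h).symm.trans hmax))
    · exact Or.inl (key p ((max_eq_left h).symm.trans hmax))
  obtain ⟨m, l, hml, h⟩ := (Pool.Agent.Y706.orb_fin _ _).mp hx
  have hd0 : d ≠ 0 := by omega
  have hpL : (p.map (algebraMap k L)).natDegree ≤ d := natDegree_map_le.trans hp
  have hqL : (q.map (algebraMap k L)).natDegree ≤ d := natDegree_map_le.trans hq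
  have hcoL : IsCoprime (p.map (algebraMap k L)) (q.map (algebraMap k L)) :=
    hco.map (Polynomial.mapRingHom (algebraMap k L))
  have htL : (p.map (algebraMap k L)).coeff d ≠ 0 ∨ (q.map (algebraMap k L)).coeff d ≠ 0 := by
    rw [coeff_map, coeff_map]
    rcases ht with h | h
    · exact Or.inl ((_root_.map_ne_zero _).mpr h)
    · exact Or.inr ((_root_.map_ne_zero _).mpr h)
  rw [Pool.Agent.Y31.BI.iter_pt hd0 hpL hqL hcoL htL, Pool.Agent.Y31.BI.iter_pt hd0 hpL hqL hcoL
    htL] at h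
  have h2 := Pool.Agent.Y31.BI.pt_eq h
  rw [itf_map, itf_map] at h2
  have h3 : Polynomial.aeval x ((Pool.Agent.Y31.BI.itf d p q l).1 *
      (Pool.Agent.Y31.BI.itf d p q m).2 - (Pool.Agent.Y31.BI.itf d p q l).2 *
      (Pool.Agent.Y31.BI.itf d p q m).1) = 0 := by
    rw [map_sub, map_mul, map_mul]
    simp only [aeval_def, ← eval_map]
    exact h2
  have halg : IsAlgebraic k x := ⟨_, R_ne hd hp hq hco ht hml, h3⟩
  have h4 : (minpoly k x).degree = 1 :=
    IsAlgClosed.degree_eq_one_of_irreducible k (minpoly.irreducible halg.isIntegral)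
  exact minpoly.mem_range_of_degree_eq_one k x h4

end Pool.Agent.Y706.KC
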