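import Pool.Agent.Y706.KC.Stm

/-!
# Project KC: the local inequality
-/

set_option autoImplicit false

namespace Pool.Agent.Y706.KC

open Pool.Agent.W277.UB Pool.Agent.W277.UG Pool.Agent.W277.UH Finset Polynomial

universe u

/-- real sequences -/
lemma seq_real {d : ℝ} (hd : 1 < d) {R M : ℝ} (u : ℕ → ℝ)
    (h1 : ∀ j, u (j + 1) ≤ d * u j) (h2 : ∀ j, d * u j - R ≤ u (j + 1)) {a b : ℕ} (hab : b < a)
    (h3 : ∀ j, u (a + j) = d ^ j * M + u (b + j)) (n : ℕ) :
    M / (d ^ a - d ^ b) ≤ u n / d ^ n ∧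
      u n / d ^ n - R / (d ^ n * (d - 1)) ≤ M / (d ^ a - d ^ b) := by
  have hd0 : 0 < d := by linarith
  have hpow : ∀ j : ℕ, 0 < d ^ j := fun j => pow_pos hd0 j
  have hlt : d ^ b < d ^ a := pow_lt_pow_right₀ hd hab
  have hdiff : 0 < d ^ a - d ^ b := by linarith
  obtain ⟨G, hG⟩ : ∃ G, G = M / (d ^ a - d ^ b) := ⟨_, rfl⟩
  have hM : M = G * (d ^ a - d ^ b) := by rw [hG]; field_simp
  rw [← hG]
  have hd1 : 0 < d - 1 := by linarith
  -- the two sequences
  have hw : Antitone fun j => u j / d ^ j := by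
    apply antitone_nat_of_succ_le
    intro j
    show u (j + 1) / d ^ (j + 1) ≤ u j / d ^ j
    rw [div_le_div_iff₀ (hpow _) (hpow _), pow_succ]
    nlinarith [h1 j, hpow j]
  have hv : Monotone fun j => u j / d ^ j - R / (d ^ j * (d - 1)) := by
    apply monotone_nat_of_le_succ
    intro j
    show u j / d ^ j - R / (d ^ j * (d - 1)) ≤ u (j + 1) / d ^ (j + 1) - R / (d ^ (j + 1) * (d - 1))
    have e1 : u j / d ^ j - R / (d ^ j * (d - 1)) =
        (d * u j * (d - 1) - R * d) / (d ^ (j + 1) * (d - 1)) := by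
      rw [pow_succ]
      have := (hpow j).ne'
      field_simp
    have e2 : u (j + 1) / d ^ (j + 1) - R / (d ^ (j + 1) * (d - 1)) =
        (u (j + 1) * (d - 1) - R) / (d ^ (j + 1) * (d - 1)) := by
      have := (hpow (j + 1)).ne'
      field_simp
    rw [e1, e2]
    apply div_le_div_of_nonneg_right _ (mul_pos (hpow _) hd1).le
    nlinarith [h2 j]
  have hrec : ∀ j, u (a + j) / d ^ (a + j) - G = d ^ b / d ^ a * (u (b + j) / d ^ (b + j) - G) := by
    intro j
    rw [h3, hM, pow_add, pow_add]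
    have h4 := (hpow a).ne'
    have h5 := (hpow b).ne'
    have h6 := (hpow j).ne'
    field_simp
    ring
  have hrho : d ^ b / d ^ a < 1 := by
    rw [div_lt_one (hpow a)]
    exact hlt
  have hrho0 : 0 < d ^ b / d ^ a := div_pos (hpow _) (hpow _)
  constructor
  · by_contra hcon
    push Not at hcon
    have h7 : u (b + n) / d ^ (b + n) < G := (hw (Nat.le_add_left n b)).trans_lt hcon
    have h8 : u (a + n) / d ^ (a + n) ≤ u (b + n) / d ^ (b + n) := hw (by omega)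
    have h9 := hrec n
    nlinarith
  · by_contra hcon
    push Not at hcon
    have h7 : G < u (b + n) / d ^ (b + n) - R / (d ^ (b + n) * (d - 1)) :=
      hcon.trans_le (hv (Nat.le_add_left n b))
    have h8 : u (b + n) / d ^ (b + n) - R / (d ^ (b + n) * (d - 1)) ≤
        u (a + n) / d ^ (a + n) - R / (d ^ (a + n) * (d - 1)) :=
      hv (show b + n ≤ a + n by omega)
    have h9 := hrec n
    have h10 : R / (d ^ (a + n) * (d - 1)) = d ^ b / d ^ a * (R / (d ^ (b + n) * (d - 1))) := by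
      rw [pow_add, pow_add]
      have h4 := (hpow a).ne'
      have h5 := (hpow b).ne'
      have h6 := (hpow n).ne'
      field_simp
    have h11 : u (a + n) / d ^ (a + n) - R / (d ^ (a + n) * (d - 1)) - G =
        d ^ b / d ^ a * (u (b + n) / d ^ (b + n) - R / (d ^ (b + n) * (d - 1)) - G) := by
      rw [h10]
      linarith [h9]
    nlinarith

variable {Ω : Type u} [NormedField Ω] [IsUltrametricDist Ω]

lemma it_smul' (S : HS Ω) (t : Ω) (j : ℕ) (X : Ω × Ω) :
    S.F^[j] (t • X) = t ^ S.d ^ j • S.F^[j] X := by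
  have h := (S.iter j).hom t X
  rwa [HS.iter_F, HS.iter_d] at h

/-- one point -/
lemma point (S : HS Ω) (B : Fam Ω) (hgs : S.gs = 1) (hd2 : 2 ≤ S.d) {X : Ω × Ω} (hX : ‖X‖ = 1)
    {μ : Ω} {a b : ℕ} (hab : b < a) (hμ : μ ≠ 0) (h : S.F^[a] X = μ • S.F^[b] X) (n : ℕ) :
    Real.log ‖S.F^[n] X‖ / (S.d : ℝ) ^ n - S.Res / ((S.d : ℝ) ^ n * (S.d - 1)) ≤
      Real.log ‖μ‖ / ((S.d : ℝ) ^ a - (S.d : ℝ) ^ b) := by
  have hX0 : X ≠ 0 := by
    rintro rfl
    simp at hX
  have hne : ∀ j, S.F^[j] X ≠ 0 := by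
    intro j
    induction j with
    | zero => exact hX0
    | succ j ih => rw [Function.iterate_succ_apply']; exact S.nz _ ih
  have hpos : ∀ j, 0 < ‖S.F^[j] X‖ := fun j => norm_pos_iff.mpr (hne j)
  have hdR : (1 : ℝ) < S.d := by
    have : (2 : ℝ) ≤ S.d := by exact_mod_cast hd2
    linarith
  refine (seq_real hdR (R := S.Res) (M := Real.log ‖μ‖) (fun j => Real.log ‖S.F^[j] X‖) ?_ ?_ hab
    ?_ n).2
  · intro j
    show Real.log ‖S.F^[j + 1] X‖ ≤ S.d * Real.log ‖S.F^[j] X‖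
    rw [Function.iterate_succ_apply', ← Real.log_pow]
    apply Real.log_le_log (norm_pos_iff.mpr (S.nz _ (hne j)))
    refine (HS.norm_F_le _).trans ?_
    rw [hgs, one_mul]
  · intro j
    show S.d * Real.log ‖S.F^[j] X‖ - S.Res ≤ Real.log ‖S.F^[j + 1] X‖
    rw [Function.iterate_succ_apply', ← Real.log_pow]
    have h1 := HS.norm_F_ge B hgs.le (S.F^[j] X)
    have h2 := Real.log_le_log (mul_pos (Real.exp_pos _) (pow_pos (hpos j) _)) h1
    rw [Real.log_mul (Real.exp_pos _).ne' (pow_pos (hpos j) _).ne', Real.log_exp] at h2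
    linarith
  · intro j
    show Real.log ‖S.F^[a + j] X‖ = (S.d : ℝ) ^ j * Real.log ‖μ‖ + Real.log ‖S.F^[b + j] X‖
    rw [add_comm a j, add_comm b j, Function.iterate_add_apply, h, it_smul',
      Function.iterate_add_apply, norm_smul, norm_pow, Real.log_mul, Real.log_pow]
    · push_cast
      rfl
    · exact pow_ne_zero _ (norm_ne_zero_iff.mpr hμ)
    · rw [← Function.iterate_add_apply]
      exact (hpos _).ne'

/-- the exceptional points -/
lemma bad_card (H : HS Ω) (Z : Finset Ω) (hZ : ∀ z ∈ Z, ‖z‖ ≤ 1)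
    (hsep : ∀ z ∈ Z, ∀ z' ∈ Z, z ≠ z' → ‖z - z'‖ = 1) :
    ∃ E ⊆ Z, E.card ≤ H.d ∧ ∀ z ∈ Z, z ∉ E → H.gs ≤ ‖H.F (z, 1)‖ := by
  classical
  have key : ∀ (Y : Ω × Ω) (c : Ω) (η : Fin H.d → Ω × Ω), ‖Y‖ = 1 → H.IsRS Y c η →
      ∃ E ⊆ Z, E.card ≤ H.d ∧ ∀ z ∈ Z, z ∉ E → ‖c‖ ≤ ‖H.F (z, 1)‖ := by
    intro Y c η hY h
    refine ⟨Z.filter fun z => ∃ l, ‖wd (z, 1) (η l)‖ < 1, Finset.filter_subset _ _, ?_, ?_⟩
    · have hch : ∀ z, ∃ l : Fin H.d, (∃ l, ‖wd (z, 1) (η l)‖ < 1) → ‖wd (z, 1) (η l)‖ < 1 := by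
        intro z
        by_cases hz : ∃ l, ‖wd (z, 1) (η l)‖ < 1
        · obtain ⟨l, hl⟩ := hz
          exact ⟨l, fun _ => hl⟩
        · exact ⟨⟨0, H.hd⟩, fun h => absurd h hz⟩
      choose ℓ hℓ using hch
      have h1 := Finset.card_le_card_of_injOn (s := Z.filter fun z => ∃ l, ‖wd (z, 1) (η l)‖ < 1)
        (t := (Finset.univ : Finset (Fin H.d))) ℓ (fun _ _ => Finset.mem_univ _) (by
          intro z hz z' hz' hzz
          rw [Finset.mem_coe, Finset.mem_filter] at hz hz'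
          by_contra hne
          have h2 := hℓ z hz.2
          have h3 := hℓ z' hz'.2
          rw [hzz] at h2
          refine class_unique (norm_pair_one (hZ z hz.1)) (norm_pair_one (hZ z' hz'.1))
            (h.2.1 _) ?_ h2 h3
          show ‖wd (z, 1) (z', 1)‖ = 1
          unfold wd
          simp only [mul_one, one_mul]
          exact hsep z hz.1 z' hz'.1 hne)
      rwa [Finset.card_univ, Fintype.card_fin] at h1
    · intro z hz hzE
      have h1 : ∀ l, 1 ≤ ‖wd (z, 1) (η l)‖ := by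
        intro l
        by_contra hcon
        push Not at hcon
        exact hzE (Finset.mem_filter.mpr ⟨hz, l, hcon⟩)
      have h2 : ‖c‖ ≤ ‖wd (H.F (z, 1)) Y‖ := by
        rw [HS.rs_ord h]
        have : 1 ≤ ∏ l, ‖wd (z, 1) (η l)‖ := by
          calc (1 : ℝ) = ∏ _l : Fin H.d, 1 := by simp
            _ ≤ _ := Finset.prod_le_prod (fun _ _ => zero_le_one) fun l _ => h1 l
        nlinarith [norm_nonneg c]
      refine h2.trans ((norm_wd_le _ _).trans ?_)
      rw [hY, mul_one]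
  obtain ⟨c₁, c₂, η₁, η₂, h, h1, h2⟩ := HS.gs_spec (S := H)
  rcases le_total ‖c₁‖ ‖c₂‖ with h3 | h3
  · rw [h, max_eq_right h3]
    exact key _ _ _ norm_e1 h2
  · rw [h, max_eq_left h3]
    exact key _ _ _ norm_e2 h1

end Pool.Agent.Y706.KC
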