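import Pool.Agent.Y706.KC.Loc

/-!
# Project KC: the local inequality
-/

set_option autoImplicit false

namespace Pool.Agent.Y706.KC

open Pool.Agent.W277.UB Pool.Agent.W277.UG Pool.Agent.W277.UH Finset Polynomial

universe u

variable {Ω : Type u} [NormedField Ω] [IsUltrametricDist Ω]

omit [IsUltrametricDist Ω] in
lemma norm_swap (X : Ω × Ω) : ‖Prod.swap X‖ = ‖X‖ := by
  rw [Prod.norm_def, Prod.norm_def, max_comm]
  rfl

omit [IsUltrametricDist Ω] in
lemma wd_swap (A Y : Ω × Ω) : wd (Prod.swap A) Y = -wd A (Prod.swap Y) := by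
  unfold wd
  simp only [Prod.fst_swap, Prod.snd_swap]
  ring

omit [IsUltrametricDist Ω] in
/-- composition with the swap -/
lemma exists_swap (S : HS Ω) : ∃ T : HS Ω, (∀ X, T.F X = Prod.swap (S.F X)) ∧ T.d = S.d ∧
    T.Res = S.Res := by
  refine ⟨⟨fun X => Prod.swap (S.F X), S.d, S.hd, S.Res, ?_, ?_, ?_⟩, fun _ => rfl, rfl, rfl⟩
  · intro t X
    rw [S.hom]
    rfl
  · intro X hX h
    apply S.nz X hX
    have := congrArg Prod.swap h
    rwa [Prod.swap_swap] at this
  · intro Y hY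
    obtain ⟨c, η, hc, hη, h1, h2⟩ := S.roots (Prod.swap Y) (by rw [norm_swap]; exact hY)
    refine ⟨-c, η, neg_ne_zero.mpr hc, hη, ?_, ?_⟩
    · intro X
      rw [wd_swap, h1, neg_mul]
    · rw [norm_neg]
      simp only [norm_swap]
      exact h2

/-- the base -/
lemma exists_base' [IsAlgClosed Ω] (d : ℕ) (p q : Polynomial Ω) (hp : p.natDegree ≤ d)
    (hq : q.natDegree ≤ d) (ht : p.coeff d ≠ 0 ∨ q.coeff d ≠ 0) (hd : 1 ≤ d)
    (hco : IsCoprime p q) :
    ∃ S : HS Ω, S.F = vF d p q ∧ S.d = d ∧ Real.exp (-S.Res) = ‖resultant q p d d‖ := by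
  by_cases hqd : q.coeff d = 0
  · have hpd : p.natDegree = d := le_antisymm hp (le_natDegree_of_ne_zero (ht.resolve_right
      (fun h => h hqd)))
    obtain ⟨S, h1, h2, h3⟩ := exists_base d q p hq hpd hd hco.symm
    obtain ⟨T, g1, g2, g3⟩ := exists_swap S
    refine ⟨T, ?_, g2.trans h2, ?_⟩
    · funext X
      rw [g1, h1]
      rfl
    · rw [g3, h3, resultant_comm, norm_mul, norm_pow, norm_neg, norm_one, one_pow, one_mul]
  · have hqd' : q.natDegree = d := le_antisymm hq (le_natDegree_of_ne_zero hqd)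
    exact exists_base d p q hp hqd' hd hco

omit [IsUltrametricDist Ω] in
lemma vF_smul (d : ℕ) (p q : Polynomial Ω) (s : Ω) (X : Ω × Ω) :
    vF d (C s * p) (C s * q) X = s • vF d p q X := by
  unfold vF hev
  ext
  · simp only [coeff_C_mul, Prod.smul_fst, smul_eq_mul, Finset.mul_sum]
    exact Finset.sum_congr rfl fun i _ => by ring
  · simp only [coeff_C_mul, Prod.smul_snd, smul_eq_mul, Finset.mul_sum]
    exact Finset.sum_congr rfl fun i _ => by ring

omit [IsUltrametricDist Ω] in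
lemma vF_hom (d : ℕ) (p q : Polynomial Ω) (t : Ω) (X : Ω × Ω) :
    vF d p q (t • X) = t ^ d • vF d p q X := bF_hom d p q t X

omit [IsUltrametricDist Ω] in
lemma it_scale (d : ℕ) (p q : Polynomial Ω) (s : Ω) (X : Ω × Ω) (n : ℕ) :
    (vF d (C s * p) (C s * q))^[n] X =
      s ^ (∑ i ∈ Finset.range n, d ^ i) • (vF d p q)^[n] X := by
  induction n with
  | zero => simp
  | succ n ih =>
    rw [Function.iterate_succ_apply', ih, vF_smul, vF_hom, smul_smul,
      Function.iterate_succ_apply', Finset.sum_range_succ', ← pow_mul, pow_zero, pow_succ,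
      mul_comm s]
    congr 3
    rw [Finset.sum_mul]
    exact Finset.sum_congr rfl fun i _ => (pow_succ d i).symm

lemma prod_coeff {ι : Type*} (s : Finset ι) (f : ι → Polynomial Ω)
    (hf : ∀ i j, ‖(f i).coeff j‖ ≤ 1) (j : ℕ) : ‖(∏ i ∈ s, f i).coeff j‖ ≤ 1 := by
  classical
  induction s using Finset.induction_on generalizing j with
  | empty =>
    rw [Finset.prod_empty, coeff_one]
    split_ifs <;> simp
  | insert a s ha ih =>
    rw [Finset.prod_insert ha, coeff_mul]
    apply IsUltrametricDist.norm_sum_le_of_forall_le_of_nonneg zero_le_one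
    intro x _
    rw [norm_mul]
    exact mul_le_one₀ (hf _ _) (norm_nonneg _) (ih _)

/-- the coefficients are bounded by the Gauss norm -/
lemma coeff_le (hinf : Infinite Ω) {n : ℕ} (g : Polynomial Ω) (c : Ω) (η : Fin n → Ω × Ω)
    (hη : ∀ l, ‖η l‖ = 1) (h : ∀ x, g.eval x = c * ∏ l, wd (x, 1) (η l)) (i : ℕ) :
    ‖g.coeff i‖ ≤ ‖c‖ := by
  have hg : g = C c * ∏ l, (X * C (η l).2 - C (η l).1) := by
    apply Polynomial.funext
    intro x
    rw [h, eval_mul, eval_C, eval_prod]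
    congr 1
    apply Finset.prod_congr rfl
    intro l _
    unfold wd
    simp
    ring
  rw [hg, coeff_C_mul, norm_mul]
  have h1 : ‖(∏ l, (X * C (η l).2 - C (η l).1)).coeff i‖ ≤ 1 := by
    apply prod_coeff
    intro l j
    have h2 := hη l
    rw [Prod.norm_def] at h2
    rw [coeff_sub, sub_eq_add_neg]
    refine (IsUltrametricDist.norm_add_le_max _ _).trans (max_le ?_ ?_)
    · rw [coeff_mul_C, norm_mul, coeff_X]
      split_ifs
      · rw [norm_one, one_mul]
        exact (le_max_right _ _).trans h2.le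
      · rw [norm_zero, zero_mul]
        exact zero_le_one
    · rw [norm_neg, coeff_C]
      split_ifs
      · exact (le_max_left _ _).trans h2.le
      · rw [norm_zero]
        exact zero_le_one
  calc ‖c‖ * _ ≤ ‖c‖ * 1 := mul_le_mul_of_nonneg_left h1 (norm_nonneg _)
    _ = ‖c‖ := mul_one _

/-- the Gauss norm and the coefficients -/
lemma gs_coeff (B : Fam Ω) (hB : ∀ i, B.b i = ((i : Ω), 1)) (S : HS Ω) (d : ℕ)
    (p q : Polynomial Ω) (hp : p.natDegree ≤ d) (hq : q.natDegree ≤ d) (hS : S.F = vF d p q) :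
    (∃ i, ‖p.coeff i‖ = S.gs ∨ ‖q.coeff i‖ = S.gs) ∧ ∀ i, ‖p.coeff i‖ ≤ S.gs ∧
      ‖q.coeff i‖ ≤ S.gs := by
  classical
  have hinf : Infinite Ω := by
    apply Infinite.of_injective (fun i : ℕ => (i : Ω))
    intro i j hij
    by_contra hne
    have h1 := B.sep i j hne
    have h2 : (i : Ω) = j := hij
    rw [hB, hB, h2] at h1
    unfold wd at h1
    simp at h1
  have e1 : ∀ x : Ω, S.F (x, 1) = (p.eval x, q.eval x) := by
    intro x
    rw [hS]
    unfold vF
    rw [hev_one d p hp, hev_one d q hq]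
  obtain ⟨c₁, c₂, η₁, η₂, h, h1, h2⟩ := HS.gs_spec (S := S)
  have hle : ∀ i, ‖p.coeff i‖ ≤ S.gs ∧ ‖q.coeff i‖ ≤ S.gs := by
    intro i
    constructor
    · refine (coeff_le hinf p c₁ η₁ h1.2.1 ?_ i).trans (h ▸ le_max_left _ _)
      intro x
      rw [← h1.2.2.1, e1]
      unfold wd
      simp
    · refine (coeff_le hinf q (-c₂) η₂ h2.2.1 ?_ i).trans ?_
      · intro x
        rw [neg_mul, ← h2.2.2.1, e1]
        unfold wd
        simp
      · rw [norm_neg, h]
        exact le_max_right _ _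
  refine ⟨?_, hle⟩
  by_contra hcon
  push Not at hcon
  have hlt : ∀ i, ‖p.coeff i‖ < S.gs ∧ ‖q.coeff i‖ < S.gs := fun i =>
    ⟨lt_of_le_of_ne (hle i).1 (hcon i).1, lt_of_le_of_ne (hle i).2 (hcon i).2⟩
  obtain ⟨E, hE⟩ := HS.gs_attained (S := S) B
  obtain ⟨i, hi⟩ := Infinite.exists_notMem_finset E
  have h3 := hE i hi
  have hbi : ‖(i : Ω)‖ ≤ 1 := by
    have := B.unit i
    rw [hB, Prod.norm_def] at this
    exact (le_max_left _ _).trans this.le
  have hpos := HS.gs_pos (S := S)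
  have key : ∀ g : Polynomial Ω, (∀ i, ‖g.coeff i‖ < S.gs) → ‖g.eval (i : Ω)‖ < S.gs := by
    intro g hg
    rw [eval_eq_sum_range]
    obtain ⟨j, hj, hj2⟩ := IsUltrametricDist.exists_norm_finsetSum_le_of_nonempty
      (t := Finset.range (g.natDegree + 1)) ⟨0, Finset.mem_range.mpr (Nat.succ_pos _)⟩
      (fun j => g.coeff j * (i : Ω) ^ j)
    refine hj2.trans_lt ?_
    rw [norm_mul, norm_pow]
    calc ‖g.coeff j‖ * ‖(i : Ω)‖ ^ j ≤ ‖g.coeff j‖ * 1 :=
          mul_le_mul_of_nonneg_left (pow_le_one₀ (norm_nonneg _) hbi) (norm_nonneg _)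
      _ < S.gs := by rw [mul_one]; exact hg j
  rw [hB, e1, Prod.norm_def] at h3
  have h4 : max ‖p.eval (i : Ω)‖ ‖q.eval (i : Ω)‖ < S.gs :=
    max_lt (key p fun i => (hlt i).1) (key q fun i => (hlt i).2)
  exact absurd h3 h4.ne

end Pool.Agent.Y706.KC
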