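import Pool.Agent.Y706.KC.Loc2

/-!
# Project KC: the local inequality
-/

set_option autoImplicit false

namespace Pool.Agent.Y706.KC

open Pool.Agent.W277.UB Pool.Agent.W277.UG Pool.Agent.W277.UH Finset Polynomial

universe u

lemma geom_sub {d : ℕ} (hd : 2 ≤ d) (n : ℕ) :
    ((∑ i ∈ Finset.range n, d ^ i : ℕ) : ℝ) * ((d : ℝ) - 1) = (d : ℝ) ^ n - 1 := by
  push_cast
  exact geom_sum_mul _ _

/-- the sum over the points -/
lemma sum_points {Ω : Type u} [NormedField Ω] [IsUltrametricDist Ω] (S : HS Ω) (B : Fam Ω)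
    (hgs : S.gs = 1) (hd2 : 2 ≤ S.d) (Z : Finset Ω) (hZ : ∀ z ∈ Z, ‖z‖ ≤ 1)
    (hsep : ∀ z ∈ Z, ∀ z' ∈ Z, z ≠ z' → ‖z - z'‖ = 1) (mu : Ω → Ω) (a b : Ω → ℕ)
    (hmu : ∀ z ∈ Z, mu z ≠ 0 ∧ b z < a z ∧ S.F^[a z] (z, 1) = mu z • S.F^[b z] (z, 1)) (n : ℕ)
    (hn : 1 ≤ n) :
    ∑ z ∈ Z, (-(Real.log ‖mu z‖ / ((S.d : ℝ) ^ a z - (S.d : ℝ) ^ b z))) ≤
        Z.card * (S.Res * ((1 - ((S.d : ℝ) - 1) / (2 * (S.d + 1))) / (2 * S.d * (S.d - 1)) +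
          1 / (2 * (S.d : ℝ) ^ n) + 1 / ((S.d : ℝ) ^ n * (S.d - 1)))) +
          (S.d : ℝ) ^ n * S.Res / (S.d - 1) := by
  classical
  obtain ⟨m, rfl⟩ : ∃ m, n = m + 1 := ⟨n - 1, by omega⟩
  have hdR : (2 : ℝ) ≤ S.d := by exact_mod_cast hd2
  have hR : 0 ≤ S.Res := HS.Res_nonneg B hgs.le
  obtain ⟨E, hE, hEc, hEz⟩ := bad_card (S.iter (m + 1)) Z hZ hsep
  have hK := HS.lemmaK B hgs hd2 m
  obtain ⟨γ, hγ⟩ : ∃ γ, γ = (S.iter (m + 1)).gs := ⟨_, rfl⟩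
  rw [← hγ] at hK hEz
  have hγ0 : 0 < γ := by rw [hγ]; exact HS.gs_pos
  have hpow : (0 : ℝ) < (S.d : ℝ) ^ (m + 1) := by positivity
  obtain ⟨T, hT⟩ : ∃ T, T = S.Res * ((1 - ((S.d : ℝ) - 1) / (2 * (S.d + 1))) /
    (2 * S.d * (S.d - 1)) + 1 / (2 * (S.d : ℝ) ^ (m + 1)) +
      1 / ((S.d : ℝ) ^ (m + 1) * (S.d - 1))) := ⟨_, rfl⟩
  rw [← hT]
  have hT0 : 0 ≤ T := by
    rw [hT]
    apply mul_nonneg hR
    have h1 : ((S.d : ℝ) - 1) / (2 * (S.d + 1)) ≤ 1 := by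
      rw [div_le_one (by positivity)]
      linarith
    have h2 : 0 ≤ (1 - ((S.d : ℝ) - 1) / (2 * (S.d + 1))) / (2 * S.d * (S.d - 1)) :=
      div_nonneg (by linarith) (mul_nonneg (by positivity) (by linarith))
    have h3 : 0 ≤ 1 / ((S.d : ℝ) ^ (m + 1) * (S.d - 1)) :=
      div_nonneg zero_le_one (mul_nonneg hpow.le (by linarith))
    positivity
  -- good points
  have hgood : ∀ z ∈ Z, z ∉ E →
      -(Real.log ‖mu z‖ / ((S.d : ℝ) ^ a z - (S.d : ℝ) ^ b z)) ≤ T := by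
    intro z hz hzE
    obtain ⟨h1, h2, h3⟩ := hmu z hz
    have h4 := point S B hgs hd2 (norm_pair_one (hZ z hz)) h2 h1 h3 (m + 1)
    have h5 := hEz z hz hzE
    rw [HS.iter_F] at h5
    have h6 := Real.log_le_log hγ0 h5
    have h7 : Real.log γ / (S.d : ℝ) ^ (m + 1) ≤ Real.log ‖S.F^[m + 1] (z, 1)‖ / (S.d : ℝ) ^ (m + 1) :=
      div_le_div_of_nonneg_right h6 hpow.le
    have h8 : -(Real.log γ / (S.d : ℝ) ^ (m + 1)) ≤
        S.Res * ((1 - ((S.d : ℝ) - 1) / (2 * (S.d + 1))) / (2 * S.d * (S.d - 1)) +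
          1 / (2 * (S.d : ℝ) ^ (m + 1))) := by
      have e1 : -(Real.log γ / (S.d : ℝ) ^ (m + 1)) =
          (2 * (-Real.log γ) / (S.d : ℝ) ^ (m + 1)) / 2 := by ring
      have e2 : S.Res * ((1 - ((S.d : ℝ) - 1) / (2 * (S.d + 1))) / (2 * S.d * (S.d - 1)) +
          1 / (2 * (S.d : ℝ) ^ (m + 1))) =
          ((1 - ((S.d : ℝ) - 1) / (2 * (S.d + 1))) * (S.Res / (S.d * (S.d - 1))) +
        S.Res / (S.d : ℝ) ^ (m + 1)) / 2 := by
        have h9 : (S.d : ℝ) - 1 ≠ 0 := by linarith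
        have h10 : (S.d : ℝ) ≠ 0 := by linarith
        have h11 : (S.d : ℝ) + 1 ≠ 0 := by linarith
        field_simp
      rw [e1, e2]
      linarith
    rw [hT]
    have e3 : S.Res * ((1 - ((S.d : ℝ) - 1) / (2 * (S.d + 1))) / (2 * S.d * (S.d - 1)) +
        1 / (2 * (S.d : ℝ) ^ (m + 1)) + 1 / ((S.d : ℝ) ^ (m + 1) * (S.d - 1))) =
        S.Res * ((1 - ((S.d : ℝ) - 1) / (2 * (S.d + 1))) / (2 * S.d * (S.d - 1)) +
          1 / (2 * (S.d : ℝ) ^ (m + 1))) + S.Res / ((S.d : ℝ) ^ (m + 1) * (S.d - 1)) := by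
      rw [mul_add, mul_one_div]
    rw [e3]
    linarith
  -- all points
  have hall : ∀ z ∈ Z, -(Real.log ‖mu z‖ / ((S.d : ℝ) ^ a z - (S.d : ℝ) ^ b z)) ≤
      S.Res / (S.d - 1) := by
    intro z hz
    obtain ⟨h1, h2, h3⟩ := hmu z hz
    have h4 := point S B hgs hd2 (norm_pair_one (hZ z hz)) h2 h1 h3 0
    rw [Function.iterate_zero, id, norm_pair_one (hZ z hz), Real.log_one, pow_zero] at h4
    have e : (0 : ℝ) / 1 - S.Res / (1 * (S.d - 1)) = -(S.Res / (S.d - 1)) := by ring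
    rw [e] at h4
    linarith
  rw [← Finset.sum_sdiff hE]
  have h1 : ∑ z ∈ Z \ E, (-(Real.log ‖mu z‖ / ((S.d : ℝ) ^ a z - (S.d : ℝ) ^ b z))) ≤ Z.card * T := by
    have h2 : ∑ z ∈ Z \ E, (-(Real.log ‖mu z‖ / ((S.d : ℝ) ^ a z - (S.d : ℝ) ^ b z))) ≤
        ∑ z ∈ Z \ E, T := by
      apply Finset.sum_le_sum
      intro z hz
      rw [Finset.mem_sdiff] at hz
      exact hgood z hz.1 hz.2
    rw [Finset.sum_const, nsmul_eq_mul] at h2
    refine h2.trans (mul_le_mul_of_nonneg_right ?_ hT0)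
    exact_mod_cast Finset.card_le_card Finset.sdiff_subset
  have h3 : ∑ z ∈ E, (-(Real.log ‖mu z‖ / ((S.d : ℝ) ^ a z - (S.d : ℝ) ^ b z))) ≤
      (S.d : ℝ) ^ (m + 1) * S.Res / (S.d - 1) := by
    have h4 : ∑ z ∈ E, (-(Real.log ‖mu z‖ / ((S.d : ℝ) ^ a z - (S.d : ℝ) ^ b z))) ≤
        ∑ z ∈ E, S.Res / ((S.d : ℝ) - 1) :=
      Finset.sum_le_sum fun z hz => hall z (hE hz)
    rw [Finset.sum_const, nsmul_eq_mul] at h4
    refine h4.trans ?_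
    rw [mul_div_assoc]
    apply mul_le_mul_of_nonneg_right _ (div_nonneg hR (by linarith))
    rw [HS.iter_d] at hEc
    exact_mod_cast hEc
  linarith

/-- **the local inequality** -/
theorem t_LOC : S_LOC.{u} := by
  classical
  intro Ω _ _ _ hnat d hd p q hp hq ht hco
  obtain ⟨B, hB⟩ := exists_fam hnat
  obtain ⟨S₀, hF₀, hd₀, hR₀⟩ := exists_base' d p q hp hq ht (by omega) hco
  obtain ⟨s, hs0, hs⟩ : ∃ s : Ω, s ≠ 0 ∧ ‖s‖ = S₀.gs⁻¹ := by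
    obtain ⟨c₁, c₂, η₁, η₂, h, h1, h2⟩ := HS.gs_spec (S := S₀)
    rcases le_total ‖c₁‖ ‖c₂‖ with h3 | h3
    · exact ⟨c₂⁻¹, inv_ne_zero h2.1, by rw [norm_inv, h, max_eq_right h3]⟩
    · exact ⟨c₁⁻¹, inv_ne_zero h1.1, by rw [norm_inv, h, max_eq_left h3]⟩
  have hg0 := HS.gs_pos (S := S₀)
  obtain ⟨S, hF, hSd, hR⟩ := exists_base' d (C s * p) (C s * q)
    ((natDegree_C_mul_le _ _).trans hp) ((natDegree_C_mul_le _ _).trans hq) (by
      rw [coeff_C_mul, coeff_C_mul]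
      rcases ht with h | h
      · exact Or.inl (mul_ne_zero hs0 h)
      · exact Or.inr (mul_ne_zero hs0 h)) (by omega) (by
      have hu : IsUnit (C s : Polynomial Ω) := isUnit_C.mpr (isUnit_iff_ne_zero.mpr hs0)
      exact (isCoprime_mul_unit_left hu p q).mpr hco)
  have hgs : S.gs = 1 := by
    obtain ⟨E, hE⟩ := HS.gs_attained (S := S) B
    obtain ⟨E₀, hE₀⟩ := HS.gs_attained (S := S₀) B
    obtain ⟨i, hi⟩ := Infinite.exists_notMem_finset (E ∪ E₀)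
    rw [Finset.mem_union, not_or] at hi
    rw [← hE i hi.1, hF, vF_smul, norm_smul, ← hF₀, hE₀ i hi.2, hs, inv_mul_cancel₀ hg0.ne']
  obtain ⟨hc1, hc2⟩ := gs_coeff B hB S₀ d p q hp hq hF₀
  refine ⟨S₀.gs, S.Res, hg0, HS.Res_nonneg B hgs.le, ?_, hc1, hc2, ?_⟩
  · rw [hR, resultant_C_mul_left, resultant_C_mul_right, norm_mul, norm_mul, norm_pow, hs,
      mul_comm, two_mul, pow_add]
    have : S₀.gs ^ d ≠ 0 := pow_ne_zero _ hg0.ne'
    rw [inv_pow]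
    field_simp
  · intro Z lam a b hZ hsep n hn
    have hd2 : 2 ≤ S.d := by rw [hSd]; exact hd
    have hdR : (2 : ℝ) ≤ d := by exact_mod_cast hd
    have h := sum_points S B hgs hd2 Z (fun z hz => (hZ z hz).1) hsep
      (fun z => s ^ (∑ i ∈ Finset.range (a z), d ^ i) * lam z *
        (s ^ (∑ i ∈ Finset.range (b z), d ^ i))⁻¹) a b (by
        intro z hz
        obtain ⟨h1, h2, h3, h4⟩ := hZ z hz
        refine ⟨mul_ne_zero (mul_ne_zero (pow_ne_zero _ hs0) h2)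
          (inv_ne_zero (pow_ne_zero _ hs0)), h3, ?_⟩
        rw [hF, it_scale, it_scale, h4, smul_smul, smul_smul, mul_assoc,
          inv_mul_cancel₀ (pow_ne_zero _ hs0), mul_one]) n hn
    rw [hSd] at h
    refine le_trans (le_of_eq ?_) h
    apply Finset.sum_congr rfl
    intro z hz
    obtain ⟨h1, h2, h3, h4⟩ := hZ z hz
    have hsn : 0 < ‖s‖ := norm_pos_iff.mpr hs0
    have hln : 0 < ‖lam z‖ := norm_pos_iff.mpr h2
    rw [norm_mul, norm_mul, norm_inv, norm_pow, norm_pow, Real.log_mul (by positivity)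
      (by positivity), Real.log_mul (by positivity) (by positivity), Real.log_inv, Real.log_pow,
      Real.log_pow, hs, Real.log_inv]
    have e1 := geom_sub hd (a z)
    have e2 := geom_sub hd (b z)
    have h5 : (d : ℝ) ^ b z < (d : ℝ) ^ a z := pow_lt_pow_right₀ (by linarith) h3
    have h6 : (d : ℝ) ^ a z - (d : ℝ) ^ b z ≠ 0 := by linarith
    have h7 : (d : ℝ) - 1 ≠ 0 := by linarith
    obtain ⟨σ, hσ⟩ : ∃ σ, σ = ((∑ i ∈ Finset.range (a z), d ^ i : ℕ) : ℝ) := ⟨_, rfl⟩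
    obtain ⟨τ, hτ⟩ : ∃ τ, τ = ((∑ i ∈ Finset.range (b z), d ^ i : ℕ) : ℝ) := ⟨_, rfl⟩
    rw [← hσ] at e1 ⊢
    rw [← hτ] at e2 ⊢
    have e3 : (d : ℝ) ^ a z - (d : ℝ) ^ b z = (σ - τ) * (d - 1) := by linarith
    rw [e3] at h6 ⊢
    have h8 : σ - τ ≠ 0 := left_ne_zero_of_mul h6
    field_simp
    ring

end Pool.Agent.Y706.KC
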