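import Pool.Agent.W277.UB.Fin
import Pool.Agent.W277.UH.F2

/-!
# Project KC: preperiodic points which are constants
-/

namespace Pool.Agent.Y706.KC

open Pool.Agent.W277.UB Pool.Agent.W277.UG Pool.Agent.W277.UH Finset Polynomial

universe u v w

/-- the map on vectors -/
noncomputable def vF {K : Type*} [Field K] (d : ℕ) (p q : Polynomial K) (X : K × K) : K × K :=
  (hev d p X, hev d q X)

/-- the bound -/
def NN (d : ℕ) : ℕ := 8 * d * (d + 1) * d ^ 7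

/-- LOC: the local inequality -/
def S_LOC : Prop := ∀ (Ω : Type u) [NormedField Ω] [IsAlgClosed Ω] [IsUltrametricDist Ω],
  (∀ n : ℕ, n ≠ 0 → ‖(n : Ω)‖ = 1) → ∀ d : ℕ, 2 ≤ d → ∀ p q : Polynomial Ω, p.natDegree ≤ d →
  q.natDegree ≤ d → (p.coeff d ≠ 0 ∨ q.coeff d ≠ 0) → IsCoprime p q →
  ∃ g R : ℝ, 0 < g ∧ 0 ≤ R ∧ Real.exp (-R) * g ^ (2 * d) = ‖resultant q p d d‖ ∧
    (∃ i, ‖p.coeff i‖ = g ∨ ‖q.coeff i‖ = g) ∧ (∀ i, ‖p.coeff i‖ ≤ g ∧ ‖q.coeff i‖ ≤ g) ∧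
    ∀ (Z : Finset Ω) (lam : Ω → Ω) (a b : Ω → ℕ), (∀ z ∈ Z, ‖z‖ ≤ 1 ∧ lam z ≠ 0 ∧ b z < a z ∧
      (vF d p q)^[a z] (z, 1) = lam z • (vF d p q)^[b z] (z, 1)) →
      (∀ z ∈ Z, ∀ z' ∈ Z, z ≠ z' → ‖z - z'‖ = 1) → ∀ n : ℕ, 1 ≤ n →
      ∑ z ∈ Z, (Real.log g / ((d : ℝ) - 1) - Real.log ‖lam z‖ / ((d : ℝ) ^ a z - (d : ℝ) ^ b z)) ≤
        Z.card * (R * ((1 - ((d : ℝ) - 1) / (2 * (d + 1))) / (2 * d * (d - 1)) +
          1 / (2 * (d : ℝ) ^ n) + 1 / ((d : ℝ) ^ n * (d - 1)))) + (d : ℝ) ^ n * R / (d - 1)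

/-- GLO: from the local to the global inequality -/
def S_GLO : Prop := ∀ (k : Type v) (K : Type u) [Field k] [CharZero k] [Field K] [Algebra k K]
  (_ : PlaceData.{w} k K) (d : ℕ), 2 ≤ d → ∀ p q : Polynomial K, p.natDegree ≤ d → q.natDegree ≤ d →
  (p.coeff d ≠ 0 ∨ q.coeff d ≠ 0) → IsCoprime p q →
  (¬ ∃ c : K, c ≠ 0 ∧ ∀ i, (∃ x : k, algebraMap k K x = c * p.coeff i) ∧
    ∃ y : k, algebraMap k K y = c * q.coeff i) →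
  ∀ Z : Finset k, (∀ z ∈ Z, ∃ (lam : K) (a b : ℕ), lam ≠ 0 ∧ b < a ∧
    (vF d p q)^[a] (algebraMap k K z, 1) = lam • (vF d p q)^[b] (algebraMap k K z, 1)) →
  Z.card ≤ NN d

/-- the final theorem -/
def S_FIN : Prop := ∀ (k : Type u) (L : Type u) [Field k] [CharZero k] [IsAlgClosed k] [Field L]
  [Algebra k L] (d : ℕ), 2 ≤ d → ∀ p q : Polynomial L, IsCoprime p q → max p.natDegree q.natDegree = d →
  (¬ ∃ c : L, c ≠ 0 ∧ ∀ i, (∃ x : k, algebraMap k L x = c * p.coeff i) ∧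
    ∃ y : k, algebraMap k L y = c * q.coeff i) →
  {z : k | (Set.range fun m : ℕ => (ratP1 p q d)^[m] (some (algebraMap k L z))).Finite}.encard ≤
    ((NN d : ℕ) : ℕ∞)

end Pool.Agent.Y706.KC
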